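import Pool.Agent.PSV.Defs
import Pool.Agent.MTN.Stmts2
import Pool.Agent.Helper2_MTD.Gfm
import Pool.Agent.Helper83_MTD.Sys
import Pool.Agent.Helper27_MT.Geo
import Pool.Agent.Helper35_HIK.Srb

/-!
# Squad PSV (MP_c1bb77_ag), part S: families, translates, windows (helper35)

Everything is an edit of a proved module in which the constants are written down, uniformly in the
family.  `B ≥ 2`; constants which depend only on `n` are absorbed by powers of `B` (`n + 1 ≤ 2 ^ n ≤ B ^ n`).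
-/

set_option autoImplicit false

namespace Pool.Agent.PSV

open Matrix Polynomial NumberField Pool.Agent.MT100 Pool.Agent.MT100G Pool.Agent.MT100A
  Pool.Agent.MT100D Pool.Agent.Helper78_MT Pool.Agent.MTL Pool.Agent.MTN Pool.Agent.MTN.H53
  Pool.Agent.HIK Pool.Agent.MT100G.H43 Pool.Agent.MTL.H34
open scoped Kronecker

universe u

/-! ### Definitions -/

/-- The family `F` has at most `n` unknowns, degrees at most `n` and all constants at most `B`. -/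
def FSiz {d : Type} [Fintype d] [DecidableEq d] (n B : ℕ) (F : Family d) : Prop :=
  Siz n B F.H F.K F.N F.δ F.q F.B

/-- `(1 - κ X) ^ D p(X / (1 - κ X))` for `p` of degree at most `D` -/
noncomputable def hmg (κ D : ℕ) (p : ℤ[X]) : ℤ[X] :=
  ∑ i ∈ Finset.range (D + 1), C (p.coeff i) * X ^ i * (1 - C (κ : ℤ) * X) ^ (D - i)

/-- `1 / (1 - κ X)` -/
noncomputable def gV (κ : ℕ) : PowerSeries ℚ := ((1 - C (κ : ℚ) * X : ℚ[X]) : PowerSeries ℚ)⁻¹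

/-- the inverse of the translate `TrD H N δ κ`, where `K` is the inverse of `H` -/
noncomputable def TrK {d : Type} [Fintype d] [DecidableEq d] (K : Matrix d d (PowerSeries ℚ))
    (N : Matrix d d ℤ) (δ : d → ℚ) (κ : ℕ) : Matrix d d (PowerSeries ℚ) :=
  (diagonal fun i => MT100.H34.bn κ (δ i)) * (eN N (-lgp X κ) * K.map (MT100.H27.sv (gV κ)))

/-- Power saving: the set `S` has at most `C X ^ (m - δ)` elements of house at most `X`, `m = [k : ℚ]`. -/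
def PSav (k : Type) [Field k] [NumberField k] (S : Set (𝓞 k)) : Prop :=
  ∃ (δ : ℝ) (C : ℕ), 0 < δ ∧ ∀ X : ℕ, 1 ≤ X →
    (Nat.card {a : 𝓞 k // a ∈ S ∧ house (a : k) ≤ X} : ℝ) ≤
      C * (X : ℝ) ^ ((Module.finrank ℚ k : ℝ) - δ)

/-! ### Systems -/

/-- SZM (small): the size is monotone, and every family has a size.
(1) `GTC` monotone: `(B : ℚ) ^ (k + 1) ≤ B' ^ (k + 1)`; `PB`, `RB`, `Siz` from it.  (2) maximum of the
constants of `gH`, `gK` (`GType`), of the degrees and coefficients (finitely many), of the numerators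
and denominators. -/
def SzmStmt : Prop :=
  (∀ (d : Type) [Fintype d] [DecidableEq d] (n n' B B' : ℕ) (H K : Matrix d d (PowerSeries ℚ))
    (N : Matrix d d ℤ) (δ : d → ℚ) (q : ℤ[X]) (Bm : Matrix d d ℤ[X]), n ≤ n' → B ≤ B' →
    Siz n B H K N δ q Bm → Siz n' B' H K N δ q Bm) ∧
  ∀ (d : Type) [Fintype d] [DecidableEq d] (F : Family d), ∃ n B : ℕ, FSiz n B F

/-- ACE (small): absolute convergence and derivative for `‖x‖ < 1 / (2 B)`.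
Copy of `Pool.Agent.MT100G.H43.gtype_near` (Helper43_MT100G/Bas.lean) with `C = B`, `δ = 1 / (2 B)`. -/
def AceStmt : Prop :=
  ∀ (B : ℕ) (f : PowerSeries ℚ), 1 ≤ B → GTC B f → ∀ x : ℂ, ‖x‖ < 1 / (2 * B) →
    AC f x ∧ AC (dv f) x ∧ HasDerivAt (evC f) (evC (dv f) x) x

/-- TRA (medium): the translate satisfies a system with integral coefficients.
Edit of `trgD` in Helper20_MTD/Trg.lean: `V = gV κ` (there `R = 1 - κ X`, `V = R⁻¹`), and instead of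
`exists_hom` and `isGW_of_rat` use `zp (hmg κ D p) = R ^ D * sv V (zp p)` for `p` of degree at most `D` (same
computation as in `exists_hom`, Helper27_MT/Trg.lean: `R * sv V X = X`). -/
def TraStmt : Prop :=
  ∀ (d : Type) [Fintype d] [DecidableEq d] (H K : Matrix d d (PowerSeries ℚ)) (N : Matrix d d ℤ)
    (δ : d → ℚ) (q : ℤ[X]) (Bm : Matrix d d ℤ[X]), GSysW H K N δ q Bm →
    ∀ κ D : ℕ, q.natDegree ≤ D → (∀ i j, (Bm i j).natDegree ≤ D) →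
    GSysW (TrD H N δ κ) (TrK K N δ κ) N δ ((1 - C (κ : ℤ) * X) * hmg κ D q) (Bm.map (hmg κ D))

/-- TRB (medium, uses GTP, BNP, VAL): the constants of the translate.
`TrD H N δ κ = H.map (sv V) * eN N l * diagonal (bn κ (-δ i))` (see `trgD`), `V = ∑ κ ^ k X ^ k`, `l = lgp X κ =
∑ (k ≥ 1) κ ^ k / k X ^ k` (`lgp`: `rvp X κ = 1 - κ X`, the coefficient of `(κ) (1 - κ X)⁻¹` at `k - 1` is
`κ ^ k`).  `l`: denominators `lcm (1..k) ≤ 4 ^ k` (`GTC` of a primitive: `gtype_prim`, made explicit, or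
`lcm_bound` in Helper39_MT).  `sv V f`: `coeff_sv`, `|coeff (e - d) (V ^ d)| ≤ (2 κ + 2) ^ e`, an integer, so
`D` is the same as for `f`; see `gtype_sv` (`4 * A * a * b` with `a = 1`, `b = κ + 1`) in
Helper27_MT/Geo.lean.  `eN N l = ∑ (j < card d) (j!)⁻¹ l ^ j N ^ j`: GTP, `|N ^ j| ≤ (n B) ^ j`, `j! ≤ n ^ n`.  Then
products and sums of at most `n` terms (GTP). -/
def TrbStmt : Prop :=
  ∀ n : ℕ, ∃ a : ℕ, ∀ (d : Type) [Fintype d] [DecidableEq d] (H K : Matrix d d (PowerSeries ℚ))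
    (N : Matrix d d ℤ) (δ : d → ℚ) (q : ℤ[X]) (Bm : Matrix d d ℤ[X]) (B κ : ℕ),
    Siz n B H K N δ q Bm → κ ≤ B → ∀ i j,
      GTC (B ^ a) (TrD H N δ κ i j) ∧ GTC (B ^ a) (TrK K N δ κ i j)

/-- TRE (small, uses TRA, TRB, SZM): the size of the translate.  TRA with `D = n`; the coefficients of
`hmg κ n p` are at most `(n + 1) B (1 + κ) ^ n 2 ^ n`. -/
def TreStmt : Prop :=
  ∀ n : ℕ, ∃ a : ℕ, ∀ (d : Type) [Fintype d] [DecidableEq d] (H K : Matrix d d (PowerSeries ℚ))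
    (N : Matrix d d ℤ) (δ : d → ℚ) (q : ℤ[X]) (Bm : Matrix d d ℤ[X]) (B κ : ℕ),
    Siz n B H K N δ q Bm → κ ≤ B →
      Siz (n + 1) (B ^ a) (TrD H N δ κ) (TrK K N δ κ) N δ ((1 - C (κ : ℤ) * X) * hmg κ n q)
        (Bm.map (hmg κ n))

/-- SYE (medium, uses GTP): the size of a tensor product, see `gsysw_kr` in Helper83_MTD/Sys.lean.
`card (ι → m) ≤ n ^ n + 1`, degrees at most `n * n`, coefficients of a product of `n` polynomials with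
coefficients `≤ B` and degree `≤ n`: at most `((n + 1) B) ^ n`; `kd` is the sum over `s` of `A s` in the
place `s` and `1` elsewhere (`kd_one_apply`); `krd δ β = ∑ s, δ s (β s)`: denominators multiply. -/
def SyeStmt : Prop :=
  ∀ n : ℕ, ∃ n' a : ℕ, ∀ (ι m : Type) [Fintype ι] [Fintype m] [DecidableEq ι] [DecidableEq m]
    (H K : ι → Matrix m m (PowerSeries ℚ)) (N : ι → Matrix m m ℤ) (δ : ι → m → ℚ)
    (q : ι → ℤ[X]) (Bm : ι → Matrix m m ℤ[X]) (B : ℕ), Fintype.card ι ≤ n → 2 ≤ B →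
    (∀ s, Siz n B (H s) (K s) (N s) (δ s) (q s) (Bm s)) →
    Siz n' (B ^ a) (kr H) (kr K) (MT100.H83.kd (fun _ => 1) N) (MT100D.H83.krd δ) (∏ s, q s)
      (MT100.H83.kd (fun _ => 1) fun s => (∏ t ∈ Finset.univ.erase s, q t) • Bm s)

/-- KRE (small, uses SZM): the size of the Kronecker product with the identity.  See `gsysd_kron` in
Helper2_MTD/Gfm.lean: `q' = m q`, `m` the product of the denominators of the entries of `AA N δ` (at most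
`B ^ (n ^ 2)`; or take `m = ∏ i, (δ i).den`), `B' = m B ⊗ 1 - q (1 ⊗ Zᵀ)`, `|Z| ≤ 2 m B`. -/
def KreStmt : Prop :=
  ∀ n : ℕ, ∃ n' a : ℕ, ∀ (d : Type) [Fintype d] [DecidableEq d] (H K : Matrix d d (PowerSeries ℚ))
    (N : Matrix d d ℤ) (δ : d → ℚ) (q : ℤ[X]) (Bm : Matrix d d ℤ[X]) (B : ℕ),
    Siz n B H K N δ q Bm →
    (∀ i j, PowerSeries.constantCoeff (H i j) = if i = j then 1 else 0) →
    ∃ (q' : ℤ[X]) (B' : Matrix (d × d) (d × d) ℤ[X]),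
      Siz n' (B ^ a) (H ⊗ₖ (1 : Matrix d d (PowerSeries ℚ))) (K ⊗ₖ (1 : Matrix d d (PowerSeries ℚ)))
        (N ⊗ₖ (1 : Matrix d d ℤ) - (1 : Matrix d d ℤ) ⊗ₖ Nᵀ) (fun x : d × d => δ x.1 - δ x.2)
        q' B' ∧
      ∀ i j, PowerSeries.constantCoeff ((H ⊗ₖ (1 : Matrix d d (PowerSeries ℚ))) i j) =
        if i = j then 1 else 0

/-- GAE (small, uses GTP): the size of the constant gauge transformation.  See `gauge` in
Helper2_MTD/Gfm.lean: the constant coefficients are at most `B` with denominators at most `B`, so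
`m1, m2 ≤ B ^ (n ^ 2)`, `|Z1|, |Z2| ≤ B ^ (n ^ 2 + 1)`; `q' = m1 m2 q`, `B' = Z1 B Z2`. -/
def GaeStmt : Prop :=
  ∀ n : ℕ, ∃ a : ℕ, ∀ (d : Type) [Fintype d] [DecidableEq d] (H K : Matrix d d (PowerSeries ℚ))
    (N : Matrix d d ℤ) (δ : d → ℚ) (q : ℤ[X]) (Bm : Matrix d d ℤ[X]) (B : ℕ),
    Siz n B H K N δ q Bm →
    ∃ (H0 K0 : Matrix d d ℚ) (q' : ℤ[X]) (B' : Matrix d d ℤ[X]), H0 * K0 = 1 ∧ K0 * H0 = 1 ∧
      Siz n (B ^ a) (MT100D.H2.cm K0 * H) (K * MT100D.H2.cm H0) N δ q' B' ∧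
      ∀ i j, PowerSeries.constantCoeff ((MT100D.H2.cm K0 * H) i j) = if i = j then 1 else 0

/-- GMQ (medium, uses GFP, KRE, GAE, ACE, SZM): the lower bound for all the entries, uniform in the
system.  Edit of Helper1_MTN/Gme.lean (`gme1`, `gme`): in `gme1` the vector `u` has entries `0`, `1`; in
`gme` the transport by `H0` needs only `AC ((cm K0 * H) i j) w⁻¹`, true for `‖w‖ > 2 B ^ a` (ACE). -/
def GmqStmt : Prop :=
  ∀ m A : ℕ, ∃ η : ℝ, 0 < η ∧ ∀ n : ℕ, ∃ a : ℕ, ∀ (d : Type) [Fintype d] [DecidableEq d]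
    (H K : Matrix d d (PowerSeries ℚ)) (N : Matrix d d ℤ) (δ : d → ℚ) (q : ℤ[X])
    (Bm : Matrix d d ℤ[X]) (B : ℕ), Siz n B H K N δ q Bm →
    ∀ w ∈ Pts m A, ((B : ℝ) ^ a) ≤ ‖w‖ → Lb η (fun x : d × d => H x.1 x.2) w

/-! ### The monodromy of separated translates -/

/-- BAE (small, uses ACE, VAL): edit of `bas` in Helper97_MTD/Bas.lean: there `δ` can be taken to be
`1 / (2 (n + 1) B)` (ACE for `H`, `K`; VAL (4) for `q`, `zC q x` is `aeval x (zq q)`), so the radius is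
`2 (n + 1) B`. (2): VAL (4) for `x = w⁻¹`. -/
def BaeStmt : Prop :=
  ∀ (d : Type) [Fintype d] [DecidableEq d] (n B : ℕ) (F : Family d), FSiz n B F →
    Base F.q F.B ((2 * (n + 1) * B : ℕ) : ℝ) F.Y ∧
    ∀ w : ℂ, w = 0 ∨ zC F.q w⁻¹ = 0 → -(((n + 1) * B : ℕ) : ℝ) ≤ w.re

/-- TUE (small): edit of `hmn` (Helper97_MTD/Hmn.lean) and `tua` (Helper97_MTD/Moa.lean) with
`m0 = min (-b) R - 3 = -b - 3` and `m1 = R` (`htr`, Helper96_MTD/Htr.lean). -/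
def TueStmt : Prop :=
  ∀ (d : Type) [Fintype d] [DecidableEq d] (q : ℤ[X]) (B : Matrix d d ℤ[X]) (R : ℝ)
    (Y : ℂ → Matrix d d ℂ), Base q B R Y → ∀ b : ℝ, 0 ≤ b →
    (∀ w : ℂ, w = 0 ∨ zC q w⁻¹ = 0 → -b ≤ w.re) → ∀ D : ℕ, R + b + 3 ≤ D →
    ∀ (ι : Type) [Fintype ι] (κ : ι → ℕ), Sep D κ → ∀ (i : ι), ∀ g ∈ monY q B Y Set.univ,
      ∃ t ∈ tupY q B Y κ, t.1 i = g ∧ t.2 = 0 ∧ ∀ j, κ j < κ i → t.1 j = 1

/-- PSE (small, uses TUE): edit of `psa` (Helper96_MTD/Psa.lean), with the same `D` (`D ≥ 1`). -/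
def PseStmt : Prop :=
  ∀ (d : Type) [Fintype d] [DecidableEq d] (q : ℤ[X]) (B : Matrix d d ℤ[X]) (R : ℝ)
    (Y : ℂ → Matrix d d ℂ), Base q B R Y → ∀ b : ℝ, 0 ≤ b →
    (∀ w : ℂ, w = 0 ∨ zC q w⁻¹ = 0 → -b ≤ w.re) → ∀ D : ℕ, R + b + 3 ≤ D →
    ∀ (ι : Type) [Fintype ι] [DecidableEq ι] (κ : ι → ℕ), Sep D κ → ∀ m : ℕ, 0 < m →
    ∃ R0 : ℝ, ∀ Φ : MvPolynomial (Fin 3 ⊕ (ι × d × d)) ℂ,
      (∀ᶠ w : ℝ in Filter.atTop, MvPolynomial.eval (vrD m (w : ℂ) (Complex.log w)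
        fun i => Y ((w : ℂ) - κ i)) Φ = 0) →
      ∀ w : ℝ, R0 < w → ∀ g : ι → Matrix d d ℂ,
        (∀ i, g i ∈ zclosure ℂ ℂ (monY q B Y Set.univ)) →
        MvPolynomial.eval (vrD m (w : ℂ) (Complex.log w)
          fun i => Y ((w : ℂ) - κ i) * g i) Φ = 0

/-- FSE (small, uses BAE, PSE): edit of `fsa` (Helper46_MTD/Fsa.lean); `D = 3 (n + 1) B + 3`. -/
def FseStmt : Prop :=
  ∀ (d : Type) [Fintype d] [DecidableEq d] (n B : ℕ) (F : Family d), FSiz n B F →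
    ∀ (ι : Type) [Fintype ι] [DecidableEq ι] (κ : ι → ℕ), Sep (3 * (n + 1) * B + 3) κ → ∀ k : ℕ,
    ∃ R0 : ℝ, ∀ p : (ι × Fin k → d) → (ι × Fin k → d) → ℚ[X],
      ∑ β, ∑ α, ((p β α : ℚ[X]) : PowerSeries ℚ) * ∏ s, F.T (κ s.1) (β s) (α s) = 0 →
      ∀ w : ℝ, R0 < w → ∀ g : ι → Matrix d d ℂ, (∀ i, g i ∈ F.Zc) →
        ∑ β, ∑ α, (p β α).eval₂ (algebraMap ℚ ℂ) ((w : ℂ)⁻¹) *
          ∏ s, (F.Y ((w : ℂ) - κ s.1) * g s.1 * F.R w) (β s) (α s) = 0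

/-- VGQ (medium, uses TRB, ACE, SZM): the values of the translates.  `Helper1_MTN/Vgc.lean` gives
`evC (F.T κ i j) x = GG F κ x i j` for `x` near `0`.  Both sides are holomorphic on the ball
`‖x‖ < 1 / (4 B ^ a)`: the left side by TRB and ACE; `GG`: `‖κ x‖ < 1/2`, so `1 - κ x` is in the slit plane
and not zero, and `‖x / (1 - κ x)‖ ≤ 2 ‖x‖ < 1 / (2 B)` (ACE for `F.H`).  Identity theorem on the ball (it is
convex, so preconnected), then `Y_eq`. -/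
def VgqStmt : Prop :=
  ∀ n : ℕ, ∃ a : ℕ, ∀ (d : Type) [Fintype d] [DecidableEq d] (F : Family d) (B κ : ℕ),
    FSiz n B F → κ ≤ B → ∀ w : ℂ, (B : ℝ) ^ a ≤ ‖w‖ →
      F.Y (w - κ) * F.R w = tvC F κ w ∧ ∀ i j, AC (F.T κ i j) w⁻¹

/-- FSQ (medium, uses FSE, VGQ, TRB, ACE, SZM): formal relations persist at all complex points of
absolute value at least `B1 ^ a`.  Edit of Helper29_MTN/FSC.lean: `R = B1 ^ a'` is larger than the bounds of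
VGQ and of ACE for the translates (at `B1`); `Ψ` is holomorphic on `Re ζ > log R`, and `Ψ = 0` for real
`ζ > log (max R R0)` with the `R0` of FSE, which need not be explicit (`real_pts` with this bound). -/
def FsqStmt : Prop :=
  ∀ n : ℕ, ∃ a0 a : ℕ, ∀ (d : Type) [Fintype d] [DecidableEq d] (F : Family d) (B B1 : ℕ),
    FSiz n B F → B ≤ B1 → ∀ (ι : Type) [Fintype ι] [DecidableEq ι] (κ : ι → ℕ),
    Sep (B ^ a0) κ → (∀ i, κ i ≤ B1) →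
    ∀ (k : ℕ) (p : (ι × Fin k → d) → (ι × Fin k → d) → ℚ[X]),
      ∑ β, ∑ α, ((p β α : ℚ[X]) : PowerSeries ℚ) * ∏ s, F.T (κ s.1) (β s) (α s) = 0 →
      ∀ w : ℂ, (B1 : ℝ) ^ a ≤ ‖w‖ → ∀ g : ι → Matrix d d ℂ, (∀ i, g i ∈ F.Zc) →
        tf (fun β α => aeval w⁻¹ (p β α)) (fun i => F.Y (w - κ i) * g i * F.R w) = 0

/-! ### Amplification, windows -/

/-- AMQ (small): AMP with `E` depending only on the cardinalities.  Edit of Helper38_MTN/AMP.lean: `E = J k`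
with `(1 - η) ^ J (J k + 1) ^ card σ < 1`, `card σ = card (ι × d × d) ≤ n ^ 3`. -/
def AmqStmt : Prop :=
  ∀ (n : ℕ) (η : ℝ) (k : ℕ), 0 < η → ∃ E : ℕ,
    ∀ (ι d : Type) [Fintype ι] [DecidableEq ι] [Fintype d] [DecidableEq d],
    Fintype.card ι ≤ n → Fintype.card d ≤ n →
    ∀ (K : IntermediateField ℚ ℂ) (G : Set (ι → Matrix d d ℂ)) (A0 : ι → Matrix d d ℂ),
    A0 ∈ G →
    (∀ p q : MvPolynomial (ι × d × d) ℂ, (∃ A ∈ G, pv A p ≠ 0) → (∃ A ∈ G, pv A q ≠ 0) →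
      ∃ A ∈ G, pv A (p * q) ≠ 0) →
    (∀ e ≤ E, ∀ N Z : Submodule K ((ι × Fin e → d) × (ι × Fin e → d) → K),
      (∀ c, c ∈ N ↔ tf (fun β α => (c (β, α) : ℂ)) A0 = 0) →
      (∀ c, c ∈ Z ↔ ∀ A ∈ G, tf (fun β α => (c (β, α) : ℂ)) A = 0) →
      η * ((Fintype.card ((ι × Fin e → d) × (ι × Fin e → d)) : ℝ) - Module.finrank K Z) ≤
        (Fintype.card ((ι × Fin e → d) × (ι × Fin e → d)) : ℝ) - Module.finrank K N) →
    ∀ c : (ι × Fin k → d) → (ι × Fin k → d) → K, tf (fun β α => (c β α : ℂ)) A0 = 0 →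
      ∀ A ∈ G, tf (fun β α => (c β α : ℂ)) A = 0

/-- TPQ (small): change of the point, explicit `Helper63_MTN/TRP.lean`: the coefficients of `f(X - k)` are at
most `(m + 1) 2 ^ m (1 + D) ^ m ‖w‖ ^ A` and `‖w + k‖ ≥ ‖w‖ / 2`. -/
def TpqStmt : Prop :=
  ∀ m A : ℕ, ∃ a : ℕ, ∀ (D : ℕ), ∀ w ∈ Pts m A, ((D + 2 : ℕ) : ℝ) ^ a ≤ ‖w‖ →
    ∀ k : ℤ, |k| ≤ D → w + k ∈ Pts m (A + 1)

/-- NMQ (medium, uses GMQ, VGQ, FSQ, AMQ, TRE, SYE, SZM): edit of Helper76_MTN/NMZ.lean.  `E` from AMQ for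
`max n e`, the `η` of GMQ and `k`.  For `e' ≤ E` the matrix `kr (fun s : ι × Fin e' => F.T (κ s.1))` has size
`(n', B1 ^ b)` by TRE (at `B1`) and SYE (at `max (n + 1) (e * E)`).  `B ^ a0` is the separation of FSQ. -/
def NmqStmt : Prop :=
  ∀ n : ℕ, ∃ a0 : ℕ, ∀ e k m A : ℕ, ∃ a : ℕ, ∀ (d : Type) [Fintype d] [DecidableEq d]
    (F : Family d) (B B1 : ℕ), FSiz n B F → B ≤ B1 →
    ∀ (ι : Type) [Fintype ι] [DecidableEq ι] (κ : ι → ℕ), Fintype.card ι ≤ e →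
    Sep (B ^ a0) κ → (∀ i, κ i ≤ B1) →
    ∀ M0 : Set (Matrix d d ℂ), Core (F.mo Set.univ) M0 → ∀ w ∈ Pts m A, (B1 : ℝ) ^ a ≤ ‖w‖ →
    ∀ c : (ι × Fin k → d) → (ι × Fin k → d) → ℂ,
      (∀ β α, c β α ∈ IntermediateField.adjoin ℚ {w}) →
      tf c (fun i => F.Y (w - κ i) * F.R w) = 0 →
      ∀ g : ι → Matrix d d ℂ, (∀ i, g i ∈ M0) →
        tf c (fun i => F.Y (w - κ i) * g i * F.R w) = 0

/-- ELQ (medium, uses NMQ, TPQ): windows of length `K` at the points of absolute value at least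
`(B (K + 1)) ^ a`.  Edit of Helper64_MTN/ELZ.lean: `D0 = B ^ a0 + 1`, `D = (card d ^ k) ^ 2 ≤ n ^ (2 k)`,
`D0 * D ≤ B ^ c`, the translates are at most `K + D0 ≤ B1 := (B (K + 1)) ^ (a0 + 2)`; NMQ with `e = n ^ (2 k) + 1`
for all `n' ≤ D + 1`. -/
def ElqStmt : Prop :=
  ∀ n k : ℕ, ∃ c : ℕ, ∀ m A : ℕ, ∃ a : ℕ, ∀ (d : Type) [Fintype d] [DecidableEq d]
    (F : Family d) (B : ℕ), FSiz n B F → ∀ (T : Set (Fin k → d)) (M0 : Set (Matrix d d ℂ)),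
    Core (F.mo Set.univ) M0 → ∀ P : Matrix d d ℂ, IsUnit P.det →
    ∀ K : ℕ, ∀ w ∈ Pts m A, ((B * (K + 1) : ℕ) : ℝ) ^ a ≤ ‖w‖ →
      Nat.card {κ : ℕ // κ < K ∧ Exz F M0 T P (w - κ)} ≤ B ^ c

/-- MAQ (small, uses ELQ, `maa_point`): edit of Helper21_MTN/MAZ.lean (`k = 4`). -/
def MaqStmt : Prop :=
  ∀ n : ℕ, ∃ (c : ℕ) (a : ℕ → ℕ → ℕ), ∀ (d : Type) [Fintype d] [DecidableEq d]
    (F : Family d) (B : ℕ), FSiz n B F → ∀ (w : ℕ) (lev : d → ℕ), 1 ≤ w →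
    ∀ P : Matrix d d ℂ, IsUnit P.det → F.IntM P →
    ∃ S : Set ℂ, (∀ (m A K : ℕ), ∀ x ∈ Pts m A, ((B * (K + 1) : ℕ) : ℝ) ^ a m A ≤ ‖x‖ →
        Nat.card {κ : ℕ // κ < K ∧ x - κ ∈ S} ≤ B ^ c) ∧
      ∀ x : ℂ, x ∉ S → ∀ (E : Matrix d d ℚ) (V : ℕ → Submodule ℂ (d → ℂ)),
        FibreC F lev P w x E V → ∀ (K : Type u) [Field K] [CharZero K],
          mtGroup w V K = GenM (F.Mo P) w V K

/-- FPQ (small): FPZ with the explicit bound `R0 = B ^ c` (`2 (n + 1) B` is enough).  Edit of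
Helper92_MTN/FPZ.lean: `R0` is only used for `IsUnit (F.Y x).det`, `‖x‖ > R0` (`H K = 1`, ACE). -/
def FpqStmt : Prop :=
  ∀ n : ℕ, ∃ c : ℕ, ∀ (d : Type) [Fintype d] [DecidableEq d] (F : Family d) (B : ℕ),
    FSiz n B F → ∀ (w : ℕ) (lev : d → ℕ), 1 ≤ w → ∀ (P : Matrix d d ℂ) (R : ℝ), IsUnit P.det →
      F.IntM P → ((B : ℝ) ^ c) ≤ R →
      FixedC F lev P w R → ∀ x y : ℂ, R < ‖x‖ → R < ‖y‖ →
      ∀ (E E' : Matrix d d ℚ) (V V' : ℕ → Submodule ℂ (d → ℂ)), FibreC F lev P w x E V →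
      (∀ (K : Type u) [Field K] [CharZero K], mtGroup w V K = GenM (F.Mo P) w V K) →
      PolHodge w E' V' → F.HasFil lev P y V' →
      ∀ (K : Type u) [Field K] [CharZero K], mtGroup w V' K ⊆ mtGroup w V K

/-! ### Counting in number fields -/

/-- SMQ (medium): (1) the number of the elements of house at most `X` with a small conjugate;
(2) averaging over windows.  (1) As `Helper44_HIK/AVG.lean`: the pairs `(a, j)`, `a` in the set, `j < X`, inject by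
`(a - j, j)` into the pairs with `house (a - j) ≤ 2 X` and `‖σ (a - j) + j‖ < Y`: at most `2 Y + 1` integers `j`
(Helper35_HIK/Sml.lean) for each of the at most `C (2 X + 1) ^ m` elements (BOX).  (2) As
`Helper55_HIK/AVW.lean`: count the pairs `(w, κ)`, `κ < M`, `w - κ ∈ S`, `house w ≤ X + M`; all the sets of bounded
house are finite (BOX). -/
def SmqStmt : Prop :=
  (∀ (k : Type) [Field k] [NumberField k], ∃ C : ℕ, ∀ (σ : k →+* ℂ) (X : ℕ) (Y : ℝ), 1 ≤ X →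
    0 ≤ Y → (Nat.card {a : 𝓞 k // ‖σ (a : k)‖ < Y ∧ house (a : k) ≤ X} : ℝ) ≤
      C * (X : ℝ) ^ (Module.finrank ℚ k - 1) * (Y + 1)) ∧
  ∀ (k : Type) [Field k] [NumberField k] (S Z : Set (𝓞 k)) (C M X : ℕ), 1 ≤ M →
    (∀ w : 𝓞 k, w ∉ Z → house (w : k) ≤ X + M → Nat.card {κ : ℕ // κ < M ∧ w - κ ∈ S} ≤ C) →
    M * Nat.card {a : 𝓞 k // a ∈ S ∧ house (a : k) ≤ X} ≤
      C * Nat.card {a : 𝓞 k // house (a : k) ≤ ((X + M : ℕ) : ℝ)} +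
        M * Nat.card {a : 𝓞 k // a ∈ Z ∧ house (a : k) ≤ ((X + M : ℕ) : ℝ)}

/-- WDQ (medium, uses SMQ, PTH, BOX): power saving from windows.  `m = [k : ℚ]`.  If
`X ^ (1 / (2 α)) ≤ 4 B` or `X` is smaller than a bound which depends on `k`, use BOX.  Otherwise let
`M = ⌊X ^ (1 / (2 α)) / B⌋ - 1 ≥ X ^ (1 / (2 α)) / (4 B)`, `Z = {w | ‖σ w‖ < (2 X) ^ (1 / 2)}`.  For `w ∉ Z`,
`house w ≤ X + M ≤ 2 X`: `house w ≤ ‖σ w‖ ^ 2`, so `σ w ∈ Pts m (2 m + 2)` (PTH) and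
`(B (M + 1)) ^ α ≤ X ^ (1 / 2) ≤ ‖σ w‖`.  By SMQ (2), (1): `M #(S ∩ B_X) ≤ C C_k (2 X) ^ m + M C_k X ^ (m - 1/2)`. -/
def WdqStmt : Prop :=
  ∀ (k : Type) [Field k] [NumberField k] (α : ℕ), 1 ≤ α → ∃ Ck : ℕ,
    ∀ (σ : k →+* ℂ) (S : Set ℂ) (C B : ℕ), 1 ≤ B → 1 ≤ C →
    (∀ K : ℕ, ∀ x ∈ Pts (Module.finrank ℚ k) (2 * Module.finrank ℚ k + 2),
      ((B * (K + 1) : ℕ) : ℝ) ^ α ≤ ‖x‖ → Nat.card {κ : ℕ // κ < K ∧ x - κ ∈ S} ≤ C) →
    ∀ X : ℕ, 1 ≤ X → (Nat.card {x : 𝓞 k // σ x ∈ S ∧ house (x : k) ≤ X} : ℝ) ≤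
      Ck * C * B * (X : ℝ) ^ ((Module.finrank ℚ k : ℝ) - 1 / (2 * α))

/-- PSC (small, as DZC, `Helper94_HIK/DZC.lean`; finiteness by BOX): calculus of power saving. -/
def PscStmt : Prop :=
  ∀ (k : Type) [Field k] [NumberField k],
    (∀ S T : Set (𝓞 k), S ⊆ T → PSav k T → PSav k S) ∧
    (∀ (ι : Type) [Finite ι] (S : ι → Set (𝓞 k)), (∀ i, PSav k (S i)) → PSav k (⋃ i, S i)) ∧
    (∀ S : Set (𝓞 k), S.Finite → PSav k S) ∧ ∀ S : Set (𝓞 k), PSav k S → DZ k S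

/-- HDP (small, uses CNT, BOX): HID with power saving, `δ = 1 / e`.  As `Helper65_HIK/Hid.lean` and
`Helper44_HIK/AVG.lean`: at most `C' (R + 1) ^ (e - 1) ≤ C' 2 ^ e X ^ (1 - 1 / e)` bad `j < X` for each `a0`, `house a0 ≤ 2 X`
(`X ≤ (R + 1) ^ e`, `R ^ e < X`), so `X #(S ∩ B_X) ≤ C (2 X + 1) ^ m C' 2 ^ e X ^ (1 - 1 / e)`. -/
def HdpStmt : Prop :=
  ∀ (k : Type) [Field k] [NumberField k] (g : (𝓞 k)[X][X]), AdmK k g →
    PSav k {a : 𝓞 k | ∃ y : 𝓞 k, evalEval a y g = 0}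

/-- HCP (small, uses HDP, PSC; otherwise the hypotheses of `hic`): edit of `hic` in
Helper35_HIK/Hic.lean. -/
def HcpStmt : Prop :=
  ∀ (K : Type) [Field K] [NumberField K] (N : Subgroup GT), N.Normal → IsOpen (N : Set GT) →
    ∃ S : Set (𝓞 K), PSav K S ∧ ∀ a ∉ S, ∀ (ψ : K →+* QB) (π : BB →+* QB),
      π (algebraMap ℚ[X] BB X) = ψ a → ∃ φ : K →+* Om,
        (∀ c : K, ∃ b : BB, (b : Om) = φ c ∧ π b = ψ c) ∧
        ∀ γ ∈ Gph φ, ∃ σ ∈ decG π, σ ∈ Gph φ ∧ σ⁻¹ * γ ∈ N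

/-- SRP (small, uses HCP, otherwise the hypotheses of `ser`): edit of Helper87_HIK/SER.lean. -/
def SrpStmt : Prop :=
  ∀ (K : Type) [Field K] [NumberField K] (d : Type) [Fintype d] [DecidableEq d] (ℓ : ℕ)
    [Fact ℓ.Prime] (ρ : GT →* GL d ℚ_[ℓ]), Continuous ρ → ∃ S : Set (𝓞 K), PSav K S ∧
      ∀ a ∉ S, ∀ (ψ : K →+* QB) (ρa : Stab (ψ a) →* GL d ℚ_[ℓ]), SpecializesAt ρ (ψ a) ρa →
        Set.range ρa ⊆ Set.range ρ ∧
        ∃ Γ : Subgroup GT, Γ.FiniteIndex ∧ ρ '' (Γ : Set GT) ⊆ Set.range ρa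

/-- FNP (small, uses SRP, MON): edit of Helper81_HIK/FIN.lean. -/
def FnpStmt : Prop :=
  ∀ (K : Type) [Field K] [NumberField K] (d : Type) [Fintype d] [DecidableEq d] (ℓ : ℕ)
    [Fact ℓ.Prime] (ρ : GT →* GL d ℚ_[ℓ]), Continuous ρ → ∃ S : Set (𝓞 K), PSav K S ∧
      ∀ a ∉ S, ∀ (ψ : K →+* QB) (ρa : Stab (ψ a) →* GL d ℚ_[ℓ]), SpecializesAt ρ (ψ a) ρa →
        ∀ (F : Type u) [Field F] [Algebra ℚ_[ℓ] F], monodromy ρa F = monodromy ρ F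

/-- SBP (small, uses HCP, otherwise the hypotheses of `srb`): edit of `srb` in Helper35_HIK/Srb.lean. -/
def SbpStmt : Prop :=
  ∀ (K : Type) [Field K] [NumberField K] (H : Subgroup GT), IsOpen (H : Set GT) →
    ∀ (d : Type) [Fintype d] [DecidableEq d] (ℓ : ℕ) [Fact ℓ.Prime] (ρ : H →* GL d ℚ_[ℓ]),
      Continuous ρ → ∃ S : Set (𝓞 K), PSav K S ∧ ∀ a ∉ S, ∀ (ψ : K →+* QB) (π : BB →+* QB),
        π (algebraMap ℚ[X] BB X) = ψ a → ∀ ρs : StabH H π →* GL d ℚ_[ℓ], SpecH H ρ π ρs →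
        Set.range ρs ⊆ Set.range ρ ∧
        ∃ Γ : Subgroup H, Γ.FiniteIndex ∧ ρ '' (Γ : Set H) ⊆ Set.range ρs

/-- MPC (small): several parameters.  For `Y ^ q ≤ X`, `2 + ∑ |g i| ≤ (M + 2) Y`; sum over the at most
`(2 Y + 1) ^ M` vectors `g`: the number is at most `(3 Y) ^ M C ((M + 2) Y) ^ e X ^ (m - δ)` and
`Y ^ e ≤ X ^ (δ / 2)` if `q ≥ 2 e / δ`.  (The set of the pairs is finite: BOX.) -/
def MpcStmt : Prop :=
  ∀ (k : Type) [Field k] [NumberField k] (M e C : ℕ) (δ : ℝ), 0 < δ → ∃ q C' : ℕ,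
    ∀ S : (Fin M → ℤ) → Set (𝓞 k),
    (∀ (g : Fin M → ℤ) (X : ℕ), 1 ≤ X → (Nat.card {x : 𝓞 k // x ∈ S g ∧ house (x : k) ≤ X} : ℝ) ≤
      C * ((2 + ∑ i, (g i).natAbs : ℕ) : ℝ) ^ e * (X : ℝ) ^ ((Module.finrank ℚ k : ℝ) - δ)) →
    ∀ X Y : ℕ, 1 ≤ Y → Y ^ q ≤ X →
      (Nat.card {p : 𝓞 k × (Fin M → ℤ) // p.1 ∈ S p.2 ∧ house (p.1 : k) ≤ X ∧
        ∀ i, |p.2 i| ≤ (Y : ℤ)} : ℝ) ≤
      C' * (X : ℝ) ^ ((Module.finrank ℚ k : ℝ) - δ / 2) * (Y : ℝ) ^ M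

end Pool.Agent.PSV
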