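import Pool.Agent.PSV.Defs

/-!
# Squad PSV (MP_c1bb77_ag), explicit lower bound: statements (helper21)

Everything is an edit of a proved module in which the constants are written down.  Constants which
depend only on `n` are absorbed by powers of `B ≥ 2`: `n + 1 ≤ 2 ^ n ≤ B ^ n`.
-/

set_option autoImplicit false

namespace Pool.Agent.PSV

open Matrix Polynomial Pool.Agent.MT100 Pool.Agent.MT100G Pool.Agent.MT100D Pool.Agent.Helper39_MT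
  Pool.Agent.MT100D.H78 Pool.Agent.MT100.H76 Pool.Agent.MT100G.H76

/-- VAL (small, 4 parts). (1) `(GTC B) → (GTC B')` for `B ≤ B'`. (2) The norm at the radius `1/(2 B)`:
`∑ B ^ (k+1) / (2 B) ^ k = 2 B`. (3) If the constant term has absolute value at least `1`, the value at
`x`, `|x| ≤ 1 / (4 B ^ 2)`, is not zero: `∑ (k ≥ 1) B ^ (k + 1) |x| ^ k ≤ 2 B ^ 2 |x| ≤ 1/2` (the value is
`evC f x = c 0 + ∑ ...`; `ac_of_sm` of Helper21_MTN/Cx.lean). (4) A nonzero integral polynomial has no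
root `x ≠ 0` with `|x| (n + 1) B < 1`: factor out the power of `X`; then the constant term is an integer
`≠ 0`, the rest is at most `n B |x| < 1` (as `|x| ≤ 1`). -/
def ValStmt : Prop :=
  (∀ (B B' : ℕ) (f : PowerSeries ℚ), B ≤ B' → GTC B f → GTC B' f) ∧
  (∀ (B : ℕ) (f : PowerSeries ℚ), 1 ≤ B → GTC B f →
    Sm f (1 / (2 * B)) ∧ Nm f (1 / (2 * B)) ≤ 2 * B) ∧
  (∀ (B : ℕ) (f : PowerSeries ℚ), 1 ≤ B → GTC B f → 1 ≤ |PowerSeries.constantCoeff f| →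
    ∀ x : ℂ, ‖x‖ ≤ 1 / (4 * B ^ 2) → evC f x ≠ 0) ∧
  (∀ (n B : ℕ) (p : ℤ[X]), p ≠ 0 → PB n B p → ∀ x : ℂ, x ≠ 0 → ‖x‖ * ((n + 1) * B) < 1 →
    aeval x (zq p) ≠ 0)

/-- BNP (small). The binomial series `(1 - κ z) ^ r` (edit of `Helper34_MTQ/Bin.lean`). Write
`r = m - p/q`, `q = r.den ≤ B`, `m ≤ B + 1` and `p ≤ B (2 B + 1)` natural numbers; `bn_add`. `gtype_bn_neg` is
explicit: constant `(κ + 1) (p + 1) q ^ 2`. For `bn κ m` do not use powers of series: its coefficients are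
the integers `(-κ) ^ k * (m.choose k)`, of absolute value at most `(κ m) ^ k`. Product of two series: the
coefficient is at most `(k + 1) C ^ (k + 2) ≤ C ^ (2 k + 3)`, denominators multiply. -/
def BnpStmt : Prop := ∃ a : ℕ, ∀ B κ : ℕ, 2 ≤ B → κ ≤ B → ∀ r : ℚ, RB B r →
  GTC (B ^ a) (MT100.H34.bn κ r)

/-- GTP (small). Sums and products (edit of `gmul`, `gadd` in `Helper5_MT100/Gcl.lean`). -/
def GtpStmt : Prop :=
  (∀ (B : ℕ) (f g : PowerSeries ℚ), 2 ≤ B → GTC B f → GTC B g →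
    GTC (B ^ 4) (f * g) ∧ GTC (B ^ 4) (f + g)) ∧
  (∀ n : ℕ, ∃ a : ℕ, ∀ (ι : Type) [Fintype ι] (B : ℕ) (f : ι → PowerSeries ℚ), 2 ≤ B →
    Fintype.card ι ≤ n → (∀ i, GTC B (f i)) → GTC (B ^ a) (∑ i, f i) ∧ GTC (B ^ a) (∏ i, f i)) ∧
  (∀ n : ℕ, ∃ a : ℕ, ∀ (B : ℕ) (p : ℤ[X]), 2 ≤ B → PB n B p → GTC (B ^ a) (zp p)) ∧
  (∃ a : ℕ, ∀ (B : ℕ) (r : ℚ), 2 ≤ B → RB B r → GTC (B ^ a) (PowerSeries.C r))

/-- GMP (small, explicit `gm` of `Helper39_MT/Gal3.lean`). -/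
def GmpStmt : Prop := ∀ n : ℕ, ∃ a : ℕ, ∀ (d : Type) [Fintype d] [DecidableEq d] (B : ℕ)
  (X : Matrix d d (PowerSeries ℚ)), 2 ≤ B → Fintype.card d ≤ n → (∀ i j, GTC B (X i j)) →
  ∀ m : ℕ, msz m X ≤ ((B ^ a : ℕ) : ℚ) ^ (m + 1) ∧
    ∃ D : ℕ, 0 < D ∧ D ≤ (B ^ a) ^ (m + 1) ∧ mI m D X

/-- BGP (small, explicit `binG_diag` of `Helper78_MTD/Gal2.lean`; uses BNP for `κ = 1`, `r = δ j - δ i`
of size at most `B ^ 2`, and GMP). -/
def BgpStmt : Prop := ∀ n : ℕ, ∃ a : ℕ, ∀ (d : Type) [Fintype d] [DecidableEq d] (B : ℕ)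
  (δ : d → ℚ), 2 ≤ B → Fintype.card d ≤ n → (∀ i, RB B (δ i)) → BGC (B ^ a) (diagonal δ)

/-- GAP (medium, explicit `galD`: `Helper78_MTD/Gal3.lean`, uses BGP GMP). In `weakA` the constant is
`(w + 1) * CH ^ (c + 2) * (CQ * CL ^ ν) * CK ^ (c + 1)` with `c = n + 1`, `CH, CK, CQ` powers of `B`
(GMP, BGP), `CL` absolute (`lcm_bound`), `w ≥ 2 W`,
`W = (1 + nrm (zq q)) * (1 + nrm (X * zq q)) * s * 2 ^ (c + 1)`, `nrm (zq q) ≤ (n + 1) B`,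
`s = 2 ∑ |(N + δ) i j| + 1 ≤ 4 n ^ 2 B + 1`, and `ν ≤ 2 n` (`N ^ card = 0` for a nilpotent matrix;
`ad N = R_N - L_N`, commuting, binomial theorem; replace `adN_nil`); in `galA` the constant is multiplied
by `2 (r + 1)`, `r ≥ nrm (X * zq q)`. -/
def GapStmt : Prop := ∀ n : ℕ, ∃ a : ℕ, ∀ (d : Type) [Fintype d] [DecidableEq d]
  (H K : Matrix d d (PowerSeries ℚ)) (N : Matrix d d ℤ) (δ : d → ℚ) (q : ℤ[X])
  (Bm : Matrix d d ℤ[X]) (B : ℕ), Siz n B H K N δ q Bm →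
  ∀ T : ℕ, ∃ D : ℕ, 0 < D ∧ D ≤ (B ^ a) ^ (T + 1) ∧
    ∀ (M : ℕ) (A : ℚ) (P : Matrix d d ℤ[X]), (∀ i j, (P i j).natDegree ≤ M) →
      (∑ i, ∑ j, nrm (zq (P i j))) ≤ A → ∀ k ≤ T,
        (∀ i j, ∃ z : ℤ[X],
          (D : ℚ) • Pk (zq q) (Bm.map zq) (AA N δ) (P.map zq) k i j = zq z) ∧
        (∑ i, ∑ j, nrm (Pk (zq q) (Bm.map zq) (AA N δ) (P.map zq) k i j)) ≤
          A * 2 ^ M * ((B ^ a : ℕ) : ℚ) ^ (T + 1)

/-- SIP (medium, explicit SIE: `Helper51_MT/Sie.lean` is explicit: `C = B₁ ^ (μ M)`,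
`B₁ = 2 μ (M + 1) C₀ ^ (2 μ M)` for the structure `GT C₀ h` (common denominators: the product of the
denominators, `C₀ = B ^ μ`); see also `Helper51_MT/Wrap.lean`). -/
def SipStmt : Prop := ∀ n M : ℕ, 1 ≤ M → ∃ a : ℕ, ∀ (Λ : Type) [Fintype Λ] [Nonempty Λ]
  (h : Λ → PowerSeries ℚ) (B : ℕ), 2 ≤ B → Fintype.card Λ ≤ n → (∀ l, GTC B (h l)) →
  ∀ L : ℕ, 1 ≤ L → ∃ P : Λ → ℤ[X], P ≠ 0 ∧
    (∀ l, (P l).natDegree ≤ M * L ∧ ∀ i, |(P l).coeff i| ≤ ((B ^ a : ℕ) : ℤ) ^ L) ∧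
    ∀ i < (Fintype.card Λ * M - 1) * L, PowerSeries.coeff i (∑ l, zp (P l) * h l) = 0

/-- SAT (STRONG, commutative algebra). A basis of the saturated module of relations. The module
`Rel ⊆ ℚ[X] ^ d` of all relations is the kernel of a linear map to the domain `ℚ[[X]]` (a torsion free
`ℚ[X]`-module), so `ℚ[X] ^ d / Rel` is finitely generated and torsion free over the PID `ℚ[X]`, hence free,
and `Rel` has a complement: `ℚ[X] ^ d = Rel ⊕ F`, both free. A basis of `Rel` together with a basis of `F`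
is a basis of `ℚ[X] ^ d`, so its matrix is in `GL_d(ℚ[X])`, and so is its value at every `ξ`: the values
of the basis of `Rel` are independent. `I` is a maximal independent set (`exists_rel` of
Helper76_MT100G/Rel.lean gives `I` and some basis `R'` in the sense of `RelB` with `d ≃ Fin I.card ⊕ Fin e'`;
the ranks agree, so `e = e'`). -/
def SatStmt : Prop := ∀ (d : Type) [Fintype d] [DecidableEq d] (h : d → PowerSeries ℚ),
  ∃ (I : Finset d) (e : ℕ) (_ : d ≃ Fin I.card ⊕ Fin e) (R : Fin e → d → ℚ[X]), Ind h I ∧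
    (∀ I', Ind h I' → I'.card ≤ I.card) ∧ SatB h R

/-- ZSP (helper21): the second zero estimate with a saturated basis: no condition on the point except
`ξ q(ξ) ≠ 0`. -/
def ZspStmt : Prop := ∀ (d : Type) [Fintype d] [DecidableEq d] (H K : Matrix d d (PowerSeries ℚ))
  (N : Matrix d d ℤ) (δ : d → ℚ) (q : ℤ[X]) (Bm : Matrix d d ℤ[X]), GSysD H K N δ q Bm →
  ∀ u : d → ℚ, AA N δ *ᵥ u = 0 →
  ∀ (m' e : ℕ) (ε : d ≃ Fin m' ⊕ Fin e) (R : Fin e → d → ℚ[X]), SatB (MT100G.hv H u) R →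
  ∃ c2 : ℕ, ∀ (M T τ : ℕ) (P : d → ℚ[X]), (∀ i, (P i).natDegree ≤ M) →
    (∀ i < T, PowerSeries.coeff i (∑ i, ((P i : ℚ[X]) : PowerSeries ℚ) * MT100G.hv H u i) = 0) →
    Dt (zq q) (Bm.map zq) P ε R ≠ 0 → m' * M + c2 ≤ T + τ →
    ∀ (L : Type) [Field L] [Algebra ℚ L] (ξ : L), IsIntegral ℚ ξ → ξ ≠ 0 → aeval ξ (zq q) ≠ 0 →
    ∀ y : d → L, (∀ k < m' + τ, ∑ i, aeval ξ (Pv (zq q) (Bm.map zq) P k i) * y i = 0) →
      (∀ l, ∑ i, aeval ξ (R l i) * y i = 0) → y = 0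

/-- GFP (helper21; uses VAL GTP GAP SIP SAT ZSP): the explicit lower bound, uniform in the system. -/
def GfpStmt : Prop :=
  ∀ m A : ℕ, ∃ η : ℝ, 0 < η ∧ ∀ n : ℕ, ∃ a : ℕ, ∀ (d : Type) [Fintype d] [DecidableEq d]
    (H K : Matrix d d (PowerSeries ℚ)) (N : Matrix d d ℤ) (δ : d → ℚ) (q : ℤ[X])
    (Bm : Matrix d d ℤ[X]) (B : ℕ), Siz n B H K N δ q Bm →
    (∀ i j, PowerSeries.constantCoeff (H i j) = if i = j then 1 else 0) →
    ∀ u : d → ℤ, (∀ i, |u i| ≤ (B : ℤ)) → AA N δ *ᵥ (fun i => (u i : ℚ)) = 0 →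
    ∀ w ∈ MTN.Pts m A, ((B : ℝ) ^ a) ≤ ‖w‖ →
      MTN.Lb η (MT100G.hv H fun j => (u j : ℚ)) w

end Pool.Agent.PSV
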