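import Pool.Agent.HUK.StmtsA

/-!
# Squad PSV: sets with few algebraic numbers, with explicit constants and exponents
-/

set_option autoImplicit false

namespace Pool.Agent.PSV

open NumberField

/-- The set `S` contains few algebraic numbers: for all `m`, `A` and `X ≥ 1`
(seg) for every algebraic number `x` of degree at most `m` and height at most `X ^ A` at most
`Z m A X ^ (1 - δ m A)` of the numbers `x, x + 1, .., x + X - 1` are in `S`;
(frc) for every number field `k` of degree `m` and every embedding at most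
`Z' k A X ^ (m + A (m + 1) - δ m A)` of the `≍ X ^ (m + A (m + 1))` fractions `a / b`, `a` in the ring of
integers of `k`, `1 ≤ b ≤ X ^ A`, all whose conjugates have absolute value at most `X`, are in `S`
(`A = 0`: the elements of the ring of integers);
(alg) at most `Z m 0 X ^ (m (m + 1) / 2 - δ m 0)` of the `≍ X ^ (m (m + 1) / 2)` algebraic integers of degree
at most `m` all whose conjugates have absolute value at most `X` are in `S`. -/
structure FewC {E : Type} [Field E] (S : Set E) (δ : ℕ → ℕ → ℝ) (Z : ℕ → ℕ → ℝ)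
    (Z' : (k : Type) → [Field k] → [NumberField k] → ℕ → ℝ) : Prop where
  seg : ∀ m A X : ℕ, 1 ≤ X → ∀ x ∈ HUK.Ap E m (X ^ A),
    (Nat.card {κ : ℕ // κ < X ∧ x + κ ∈ S} : ℝ) ≤ Z m A * (X : ℝ) ^ (1 - δ m A)
  frc : ∀ (k : Type) [Field k] [NumberField k] (σ : k →+* E) (A X : ℕ), 1 ≤ X →
    (Nat.card {p : 𝓞 k × ℕ // 1 ≤ p.2 ∧ p.2 ≤ X ^ A ∧ house (p.1 : k) ≤ p.2 * X ∧
      σ p.1 / (p.2 : E) ∈ S} : ℝ) ≤
    Z' k A * (X : ℝ) ^ ((Module.finrank ℚ k : ℝ) + A * (Module.finrank ℚ k + 1) -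
      δ (Module.finrank ℚ k) A)
  alg : ∀ m X : ℕ, 1 ≤ X → (Nat.card {x : E // x ∈ S ∧ x ∈ HUK.Hb E m X} : ℝ) ≤
    Z m 0 * (X : ℝ) ^ (((m * (m + 1) / 2 : ℕ) : ℝ) - δ m 0)

end Pool.Agent.PSV
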