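import Pool.Agent.HUK.Stmts

/-!
# Squad PSV: thin sets of algebraic integers
-/

set_option autoImplicit false

namespace Pool.Agent.PSV

open NumberField

/-- The set `Y` of numbers contains few algebraic integers: for all `X ≥ 1`
at most `Z m X ^ (m (m + 1) / 2 - δ m)` of all the algebraic integers of degree at most `m` all whose
conjugates have absolute value at most `X`, and, for every number field `k` of degree `m` and every
embedding, at most `Z' k X ^ (m - δ m)` of the elements of the ring of integers of `k` all whose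
conjugates have absolute value at most `X`. -/
def Thin {E : Type} [Field E] (Y : Set E) (δ : ℕ → ℝ) (Z : ℕ → ℝ)
    (Z' : (k : Type) → [Field k] → [NumberField k] → ℝ) : Prop :=
  (∀ m X : ℕ, 1 ≤ X → (Nat.card {x : E // x ∈ Y ∧ x ∈ HUK.Hb E m X} : ℝ) ≤
    Z m * (X : ℝ) ^ (((m * (m + 1) / 2 : ℕ) : ℝ) - δ m)) ∧
  ∀ (k : Type) [Field k] [NumberField k] (σ : k →+* E) (X : ℕ), 1 ≤ X →
    (Nat.card {x : 𝓞 k // σ x ∈ Y ∧ house (x : k) ≤ X} : ℝ) ≤
      Z' k * (X : ℝ) ^ ((Module.finrank ℚ k : ℝ) - δ (Module.finrank ℚ k))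

end Pool.Agent.PSV
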