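import Pool.Agent.MTN.Stmts
import Pool.Agent.Helper21_MTN.Step

/-!
# Squad PSV (MP_c1bb77_ag): power saving.  Definitions of the explicit part (helper21)

All constants are natural numbers `B ≥ 2`; polynomially bounded means at most `B ^ a` where `a`
depends only on a bound `n` for the number of unknowns and the degrees.
-/

set_option autoImplicit false

namespace Pool.Agent.PSV

open Matrix Polynomial Pool.Agent.MT100 Pool.Agent.MT100G Pool.Agent.MT100D Pool.Agent.Helper39_MT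
  Pool.Agent.MT100D.H78 Pool.Agent.MT100.H76

/-- `f` is of G-type with the constant `B` -/
def GTC (B : ℕ) (f : PowerSeries ℚ) : Prop :=
  ∀ k : ℕ, |PowerSeries.coeff k f| ≤ (B : ℚ) ^ (k + 1) ∧
    ∃ D : ℕ, 0 < D ∧ D ≤ B ^ (k + 1) ∧ ∀ i ≤ k, ∃ z : ℤ, (D : ℚ) * PowerSeries.coeff i f = z

/-- `p` has degree at most `n` and coefficients of absolute value at most `B` -/
def PB (n B : ℕ) (p : ℤ[X]) : Prop := p.natDegree ≤ n ∧ ∀ k, |p.coeff k| ≤ (B : ℤ)

/-- the denominator and the absolute value of `r` are at most `B` -/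
def RB (B : ℕ) (r : ℚ) : Prop := r.den ≤ B ∧ |r| ≤ (B : ℚ)

/-- A system with at most `n` unknowns, degrees at most `n` and all constants at most `B`. -/
structure Siz {d : Type} [Fintype d] [DecidableEq d] (n B : ℕ) (H K : Matrix d d (PowerSeries ℚ))
    (N : Matrix d d ℤ) (δ : d → ℚ) (q : ℤ[X]) (M : Matrix d d ℤ[X]) : Prop where
  sys : GSysW H K N δ q M
  two : 2 ≤ B
  card : Fintype.card d ≤ n
  hq : PB n B q
  hM : ∀ i j, PB n B (M i j)
  hN : ∀ i j, |N i j| ≤ (B : ℤ)
  hδ : ∀ i, RB B (δ i)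
  gH : ∀ i j, GTC B (H i j)
  gK : ∀ i j, GTC B (K i j)

/-- the binomials of `ad Q` have denominators at most `C ^ (T + 1)` (`MT100D.H78.BinG` with the
constant `C`) -/
def BGC {d : Type} [Fintype d] [DecidableEq d] (C : ℕ) (Q : Matrix d d ℚ) : Prop :=
  ∀ T : ℕ, ∃ D : ℕ, 0 < D ∧ D ≤ C ^ (T + 1) ∧
    ∀ b ≤ T, ∀ (n : ℕ) (E : ℚ) (F : Matrix d d (PowerSeries ℚ)), mI n E F →
      mI n ((D : ℚ) * E) (Bi (adQ Q) b F)

/-- `R` is a basis of the module of ALL the relations between the `h i` over `ℚ[X]`, and its values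
are independent at every point of every field. -/
structure SatB {d : Type} [Fintype d] (h : d → PowerSeries ℚ) {e : ℕ} (R : Fin e → d → ℚ[X]) :
    Prop where
  rel : ∀ j, ∑ i, ((R j i : ℚ[X]) : PowerSeries ℚ) * h i = 0
  indep : LinearIndependent ℚ[X] R
  sat : ∀ p : d → ℚ[X], ∑ i, ((p i : ℚ[X]) : PowerSeries ℚ) * h i = 0 →
    p ∈ Submodule.span ℚ[X] (Set.range R)
  ev : ∀ (L : Type) [Field L] [Algebra ℚ L] (ξ : L),
    LinearIndependent L (fun l i => aeval ξ (R l i))

end Pool.Agent.PSV
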