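import Pool.Agent.PSV.StmtsS

/-!
# Squad PSV (MP_c1bb77_ag): the final statements (helper35)
-/

set_option autoImplicit false

namespace Pool.Agent.PSV

open Matrix Polynomial NumberField Pool.Agent.MT100 Pool.Agent.MT100G Pool.Agent.MT100A
  Pool.Agent.MT100D Pool.Agent.Helper78_MT Pool.Agent.MTL Pool.Agent.MTN Pool.Agent.MTN.H53
  Pool.Agent.HIK

universe u

/-- the Hodge side at one point `x`: the Mumford-Tate group, and the comparison with all other points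
whose absolute value is larger than `R ≥ R0` -/
def HSide {d : Type} [Fintype d] [DecidableEq d] (F : Family d) (lev : d → ℕ) (P : Matrix d d ℂ)
    (w : ℕ) (R0 : ℝ) (x : ℂ) : Prop :=
  ∀ (E : Matrix d d ℚ) (V : ℕ → Submodule ℂ (d → ℂ)), FibreC F lev P w x E V →
    (∀ (K : Type u) [Field K] [CharZero K], mtGroup w V K = GenM (F.Mo P) w V K) ∧
    ∀ R : ℝ, R0 ≤ R → R < ‖x‖ → FixedC F lev P w R →
      ∀ y : ℂ, R < ‖y‖ → ∀ (E' : Matrix d d ℚ) (V' : ℕ → Submodule ℂ (d → ℂ)),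
      PolHodge w E' V' → F.HasFil lev P y V' →
      ∀ (K : Type u) [Field K] [CharZero K], mtGroup w V' K ⊆ mtGroup w V K

/-- N1Q: the uniform theorem with power saving. -/
def N1qStmt : Prop :=
  ∀ n : ℕ, ∃ (c : ℕ) (a : ℕ → ℕ → ℕ) (δ : ℕ → ℝ)
    (Ck : (k : Type) → [Field k] → [NumberField k] → ℕ), (∀ m, 0 < δ m) ∧
    ∀ (d : Type) [Fintype d] [DecidableEq d] (F : Family d) (B : ℕ), FSiz n B F →
    ∀ (w : ℕ) (lev : d → ℕ), 1 ≤ w → ∀ P : Matrix d d ℂ, IsUnit P.det → F.IntM P →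
      ∃ S : Set ℂ,
        (∀ (m A K : ℕ), ∀ x ∈ Pts m A, ((B * (K + 1) : ℕ) : ℝ) ^ a m A ≤ ‖x‖ →
          Nat.card {κ : ℕ // κ < K ∧ x - κ ∈ S} ≤ B ^ c) ∧
        (∀ (k : Type) [Field k] [NumberField k] (σ : k →+* ℂ) (X : ℕ), 1 ≤ X →
          (Nat.card {x : 𝓞 k // σ x ∈ S ∧ house (x : k) ≤ X} : ℝ) ≤
            Ck k * (B : ℝ) ^ c *
              (X : ℝ) ^ ((Module.finrank ℚ k : ℝ) - δ (Module.finrank ℚ k))) ∧
        (∀ x : ℂ, x ∉ S → HSide.{u} F lev P w ((B : ℝ) ^ c) x) ∧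
        ∀ ρ : (ℓ : ℕ) → [Fact ℓ.Prime] → GT →* GL d ℚ_[ℓ],
          (∀ (ℓ : ℕ) [Fact ℓ.Prime], Continuous (ρ ℓ)) →
          ∀ (k : Type) [Field k] [NumberField k],
          ∃ (T : ℕ → Set (𝓞 k)) (T' : Set (𝓞 k)) (N : ℕ → ℕ), (∀ ℓ, PSav k (T ℓ)) ∧ DZ k T' ∧
            (∀ (ℓ : ℕ) (x : 𝓞 k), x ∈ T ℓ → (N ℓ : ℝ) ≤ house (x : k) → x ∈ T') ∧
            ∀ (ℓ : ℕ) [Fact ℓ.Prime] (x : 𝓞 k), x ∉ T ℓ →
            ∀ (ψ : k →+* QB) (ρx : Stab (ψ x) →* GL d ℚ_[ℓ]), SpecializesAt (ρ ℓ) (ψ x) ρx →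
            ∀ (K : Type u) [Field K] [CharZero K] [Algebra ℚ_[ℓ] K],
              monodromy ρx K = monodromy (ρ ℓ) K ∧
              ∀ e : QB →+* ℂ, e (ψ x) ∉ S →
                ∀ (E : Matrix d d ℚ) (V : ℕ → Submodule ℂ (d → ℂ)),
                FibreC F lev P w (e (ψ x)) E V →
                (monodromy ρx K = mtGroup w V K ↔ monodromy (ρ ℓ) K = GenM (F.Mo P) w V K) ∧
                ∀ R : ℝ, ((B : ℝ) ^ c) ≤ R → R < ‖e (ψ x)‖ → FixedC F lev P w R →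
                  ∀ y : ℂ, R < ‖y‖ → y ∉ S →
                  ∀ (E' : Matrix d d ℚ) (V' : ℕ → Submodule ℂ (d → ℂ)), FibreC F lev P w y E' V' →
                  (monodromy ρx K = mtGroup w V K ↔ monodromy (ρ ℓ) K = mtGroup w V' K)

/-- N1M: families over `ℤ ^ M`, all the parameters are free. -/
def N1mStmt : Prop :=
  ∀ (n M e : ℕ), ∃ c : ℕ, ∀ (k : Type) [Field k] [NumberField k],
    ∃ (q C : ℕ) (δ : ℝ), 0 < δ ∧
    ∀ (d : Type) [Fintype d] [DecidableEq d] (G : Set (Fin M → ℤ))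
      (F : (Fin M → ℤ) → Family d),
    (∀ g ∈ G, FSiz n ((2 + ∑ i, (g i).natAbs) ^ e) (F g)) →
    ∀ (w : ℕ) (lev : d → ℕ) (P : (Fin M → ℤ) → Matrix d d ℂ), 1 ≤ w →
    (∀ g ∈ G, IsUnit (P g).det) → (∀ g ∈ G, (F g).IntM (P g)) → ∀ σ : k →+* ℂ,
    ∃ Bad : Set (𝓞 k × (Fin M → ℤ)),
      (∀ X Y : ℕ, 1 ≤ Y → Y ^ q ≤ X →
        (Nat.card {p : 𝓞 k × (Fin M → ℤ) // p ∈ Bad ∧ house (p.1 : k) ≤ X ∧
          ∀ i, |p.2 i| ≤ (Y : ℤ)} : ℝ) ≤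
        C * (X : ℝ) ^ ((Module.finrank ℚ k : ℝ) - δ) * (Y : ℝ) ^ M) ∧
      ∀ (x : 𝓞 k) (g : Fin M → ℤ), (x, g) ∉ Bad → g ∈ G →
        HSide.{u} (F g) lev (P g) w (((2 + ∑ i, (g i).natAbs : ℕ) : ℝ) ^ c) (σ x)

end Pool.Agent.PSV
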